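import Pool.Agent.Y6.S.Stm

/-!
Job SK-EST of the project SK (helper6): static estimates of the normal form.
-/

open Set Filter Topology MeasureTheory

set_option autoImplicit false
set_option linter.all false

namespace Pool.Agent.Y678.SK

open Pool.Agent.Y5.D Pool.Agent.Y5.E
open Pool.Agent.Y6.N (lin)
open Pool.Agent.Y6.S
open Pool.Agent.Y5.S2 (Sq6 Rot2 Om Dis2)
open Pool.Agent.Y710.EP
open Pool.Agent.Y8.EP (Sq5)

/-! ### Square summable vectors -/

section vec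

variable {J : Type}

theorem mul_summable {y y' : Ix J → ℝ} (h : Summable fun i => y i ^ 2)
    (h' : Summable fun i => y' i ^ 2) : Summable (fun i => y i * y' i) := by
  refine Summable.of_norm_bounded ((h.add h').mul_left (1 / 2)) fun i => ?_
  rw [Real.norm_eq_abs, abs_le]
  constructor <;> nlinarith [sq_nonneg (y i + y' i), sq_nonneg (y i - y' i)]

theorem cs1 {y y' : Ix J → ℝ} (h : Summable fun i => y i ^ 2)
    (h' : Summable fun i => y' i ^ 2) : ∑' i, y i * y' i ≤ nm y * nm y' := by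
  refine (mul_summable h h').tsum_le_of_sum_le fun s => ?_
  refine (Real.sum_mul_le_sqrt_mul_sqrt s y y').trans ?_
  unfold nm
  gcongr
  · exact h.sum_le_tsum s (fun i _ => sq_nonneg _)
  · exact h'.sum_le_tsum s (fun i _ => sq_nonneg _)

theorem nm_neg (y : Ix J → ℝ) : nm (fun i => -y i) = nm y := by
  unfold nm
  congr 1
  exact tsum_congr fun i => by ring

theorem cs {y y' : Ix J → ℝ} (h : Summable fun i => y i ^ 2)
    (h' : Summable fun i => y' i ^ 2) : |∑' i, y i * y' i| ≤ nm y * nm y' := by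
  rw [abs_le]
  refine ⟨?_, cs1 h h'⟩
  have h1 := cs1 (y := fun i => -y i) (h.congr fun i => by ring) h'
  rw [nm_neg] at h1
  have h2 : ∑' i, -y i * y' i = -∑' i, y i * y' i := by
    rw [← tsum_neg]
    exact tsum_congr fun i => by ring
  rw [h2] at h1
  linarith

theorem nm_add {y y' : Ix J → ℝ} (h : Summable fun i => y i ^ 2)
    (h' : Summable fun i => y' i ^ 2) : nm (fun i => y i + y' i) ≤ nm y + nm y' := by
  have h0 := nm_nn y
  have h0' := nm_nn y'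
  refine le_of_sq_le_sq ?_ (by positivity)
  have e : ∑' i, (y i + y' i) ^ 2 = ∑' i, y i ^ 2 + 2 * ∑' i, y i * y' i + ∑' i, y' i ^ 2 := by
    rw [← tsum_mul_left, ← h.tsum_add ((mul_summable h h').mul_left 2),
      ← (h.add ((mul_summable h h').mul_left 2)).tsum_add h']
    exact tsum_congr fun i => by ring
  rw [nm_sq, e, ← nm_sq, ← nm_sq]
  nlinarith [cs1 h h']

end vec

/-! ### Vectors supported on the other modes of a double group -/

section dbl

variable {J : Type} {g : J → ℕ} {κ μ lam Λ M a D₁ : ℝ} {L C ℓ ℓ' : ℕ → ℝ} {B : ℕ → ℕ → ℝ}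
  {c : Ix J → Ix J → Ix J → ℝ} {D : Ix J → Ix J → ℝ} {G : ℕ}

/-- supported on the other modes of the double group `G` -/
def InD (g : J → ℕ) (G : ℕ) (y : Ix J → ℝ) : Prop :=
  (∀ n, y (Sum.inl n) = 0) ∧ ∀ j, g j / 2 ≠ G → y (Sum.inr j) = 0

/-- the support -/
def Sp (g : J → ℕ) (G : ℕ) : Set (Ix J) := {i | ∃ j, i = Sum.inr j ∧ g j / 2 = G}

theorem sp_fin (hK : Ker g Λ M L C B c) (G : ℕ) : (Sp g G).Finite := by
  refine (((hK.fin (2 * G)).union (hK.fin (2 * G + 1))).image Sum.inr).subset ?_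
  rintro i ⟨j, rfl, hj⟩
  refine ⟨j, ?_, rfl⟩
  simp only [mem_union, mem_setOf_eq]
  omega

theorem InD.zero {y : Ix J → ℝ} (h : InD g G y) {i : Ix J} (hi : i ∉ Sp g G) : y i = 0 := by
  cases i with
  | inl n => exact h.1 n
  | inr j => exact h.2 j fun h' => hi ⟨j, rfl, h'⟩

theorem sum_fin (hK : Ker g Λ M L C B c) {f : Ix J → ℝ} (h : ∀ i, i ∉ Sp g G → f i = 0) :
    Summable f :=
  summable_of_ne_finset_zero (s := (sp_fin hK G).toFinset) fun i hi =>
    h i (by simpa using hi)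

theorem sum_fin2 (hK : Ker g Λ M L C B c) {f : Ix J × Ix J → ℝ}
    (h : ∀ p, ¬ (p.1 ∈ Sp g G ∧ p.2 ∈ Sp g G) → f p = 0) : Summable f :=
  summable_of_ne_finset_zero (s := (sp_fin hK G).toFinset ×ˢ (sp_fin hK G).toFinset) fun p hp =>
    h p (by simpa using hp)

theorem InD.nice (hK : Ker g Λ M L C B c) {y : Ix J → ℝ} (h : InD g G y) : Nice g L y :=
  sum_fin hK (G := G) fun i hi => by rw [h.zero hi, abs_zero, mul_zero]

theorem InD.sq (hK : Ker g Λ M L C B c) {y : Ix J → ℝ} (h : InD g G y) :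
    Summable (fun i => y i ^ 2) :=
  sum_fin hK (G := G) fun i hi => by rw [h.zero hi]; norm_num

theorem InD.pg {y : Ix J → ℝ} (h : InD g G y) (p : ℕ) : InD g G (Pg g p y) :=
  ⟨fun n => by unfold Pg; rw [h.1]; simp, fun j hj => by unfold Pg; rw [h.2 j hj]; simp⟩

theorem InD.add {y y' : Ix J → ℝ} (h : InD g G y) (h' : InD g G y') :
    InD g G (fun i => y i + y' i) :=
  ⟨fun n => by show y _ + y' _ = 0; rw [h.1, h'.1, add_zero],
    fun j hj => by show y _ + y' _ = 0; rw [h.2 j hj, h'.2 j hj, add_zero]⟩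

theorem InD.sub {y y' : Ix J → ℝ} (h : InD g G y) (h' : InD g G y') :
    InD g G (fun i => y i - y' i) :=
  ⟨fun n => by show y _ - y' _ = 0; rw [h.1, h'.1, sub_zero],
    fun j hj => by show y _ - y' _ = 0; rw [h.2 j hj, h'.2 j hj, sub_zero]⟩

theorem wt_inD (g : J → ℕ) (G : ℕ) (y : Ix J → ℝ) : InD g G (wt g (w1 G) y) :=
  ⟨fun n => rfl, fun j hj => by
    show w1 G (g j / 2) * y (Sum.inr j) = 0
    unfold w1
    rw [if_neg hj, zero_mul]⟩

theorem wt_mul {V : Ix J → ℝ} (hV : InD g G V) (y : Ix J → ℝ) (i : Ix J) :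
    V i * wt g (w1 G) y i = V i * y i := by
  cases i with
  | inl n => rw [hV.1, zero_mul, zero_mul]
  | inr j =>
    by_cases h : g j / 2 = G
    · show V (Sum.inr j) * (w1 G (g j / 2) * y (Sum.inr j)) = _
      unfold w1
      rw [if_pos h, one_mul]
    · rw [hV.2 j h, zero_mul, zero_mul]

/-- the rotation in a double group -/
theorem nm_wt_rt (hK : Ker g Λ M L C B c) {σ : J → J} {τ : J → ℝ} (hR : Rot2 g σ τ)
    (hW : ∀ z : Ix J → ℝ, Nice g L z → nm (wt g (w1 G) (rt σ τ z)) = nm (wt g (w1 G) z))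
    (X : Ix J → ℝ) : nm (wt g (w1 G) (rt σ τ X)) = nm (wt g (w1 G) X) := by
  have h := hW (wt g (w1 G) X) ((wt_inD g G X).nice hK)
  have e1 : wt g (w1 G) (rt σ τ (wt g (w1 G) X)) = wt g (w1 G) (rt σ τ X) := by
    funext i
    cases i with
    | inl n => rfl
    | inr j =>
      show w1 G (g j / 2) * (τ j * (w1 G (g (σ j) / 2) * X (Sum.inr (σ j)))) =
        w1 G (g j / 2) * (τ j * X (Sum.inr (σ j)))
      rw [hR.grp]
      unfold w1
      split_ifs <;> ring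
  have e2 : wt g (w1 G) (wt g (w1 G) X) = wt g (w1 G) X := by
    funext i
    cases i with
    | inl n => rfl
    | inr j =>
      show w1 G (g j / 2) * (w1 G (g j / 2) * X (Sum.inr j)) = w1 G (g j / 2) * X (Sum.inr j)
      unfold w1
      split_ifs <;> ring
  rw [e1, e2] at h
  exact h

/-! ### The linear term -/

/-- the bilinear form -/
noncomputable def DD (D : Ix J → Ix J → ℝ) (α β : Ix J → ℝ) : ℝ :=
  ∑' p : Ix J × Ix J, D p.1 p.2 * α p.1 * β p.2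

theorem lin_po (hD : Dis2 g a D₁ κ L ℓ D) (z : Ix J → ℝ) {i : Ix J} (hi : i ∈ Sp g G) :
    lin D (Po z) i = lin D (wt g (w1 G) z) i := by
  obtain ⟨j, rfl, hj⟩ := hi
  refine tsum_congr fun b => ?_
  by_cases h : D (Sum.inr j) b = 0
  · rw [h, zero_mul, zero_mul]
  · have h1 := hD.blk _ _ h
    cases b with
    | inl n => rfl
    | inr j' =>
      have h2 : g j = g j' := h1
      show _ * z (Sum.inr j') = _ * (w1 G (g j' / 2) * z (Sum.inr j'))
      unfold w1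
      rw [if_pos (by rw [← h2]; exact hj), one_mul]

theorem dd_summable (hK : Ker g Λ M L C B c) {V y : Ix J → ℝ} (hV : InD g G V) (hy : InD g G y) :
    Summable (fun p : Ix J × Ix J => D p.1 p.2 * V p.1 * y p.2) := by
  refine sum_fin2 hK (G := G) fun p hp => ?_
  by_cases h1 : p.1 ∈ Sp g G
  · rw [hy.zero (fun h2 => hp ⟨h1, h2⟩), mul_zero]
  · rw [hV.zero h1, mul_zero, zero_mul]

theorem sum_lin (hK : Ker g Λ M L C B c) {V y : Ix J → ℝ} (hV : InD g G V) (hy : InD g G y) :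
    ∑' i, V i * lin D y i = DD D V y := by
  unfold DD
  rw [(dd_summable hK hV hy).tsum_prod]
  refine tsum_congr fun i => ?_
  unfold lin
  rw [← tsum_mul_left]
  exact tsum_congr fun b => by ring

theorem dd_add (hK : Ker g Λ M L C B c) {V y y' : Ix J → ℝ} (hV : InD g G V) (hy : InD g G y)
    (hy' : InD g G y') : DD D V (fun i => y i + y' i) = DD D V y + DD D V y' := by
  unfold DD
  rw [← (dd_summable hK hV hy).tsum_add (dd_summable hK hV hy')]
  exact tsum_congr fun p => by ring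

theorem dd_split (hK : Ker g Λ M L C B c) (hD : Dis2 g a D₁ κ L ℓ D) {V y : Ix J → ℝ}
    (hV : InD g G V) (hy : InD g G y) : DD D V y = DD D (Pg g (2 * G) V) (Pg g (2 * G) y) +
      DD D (Pg g (2 * G + 1) V) (Pg g (2 * G + 1) y) := by
  unfold DD
  rw [← (dd_summable hK (hV.pg _) (hy.pg _)).tsum_add (dd_summable hK (hV.pg _) (hy.pg _))]
  refine tsum_congr fun p => ?_
  by_cases h : D p.1 p.2 = 0
  · rw [h]; ring
  · have h1 := hD.blk _ _ h
    by_cases h2 : p.1 ∈ Sp g G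
    · obtain ⟨j, h3, h4⟩ := h2
      have h5 : gr g p.1 = g j := by rw [h3]; rfl
      have h6 : gr g p.1 = 2 * G ∨ gr g p.1 = 2 * G + 1 := by omega
      unfold Pg
      rw [← h1]
      rcases h6 with h6 | h6
      · rw [if_pos h6, if_pos h6, if_neg (by omega), if_neg (by omega)]
        ring
      · rw [if_pos h6, if_pos h6, if_neg (by omega), if_neg (by omega)]
        ring
    · have h3 := hV.zero h2
      unfold Pg
      rw [h3]
      simp

theorem nm_split (hK : Ker g Λ M L C B c) {V : Ix J → ℝ} (hV : InD g G V) :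
    nm V ^ 2 = nm (Pg g (2 * G) V) ^ 2 + nm (Pg g (2 * G + 1) V) ^ 2 := by
  rw [nm_sq, nm_sq, nm_sq, ← ((hV.pg _).sq hK).tsum_add ((hV.pg _).sq hK)]
  refine tsum_congr fun i => ?_
  by_cases h2 : i ∈ Sp g G
  · obtain ⟨j, h3, h4⟩ := h2
    have h5 : gr g i = g j := by rw [h3]; rfl
    have h6 : gr g i = 2 * G ∨ gr g i = 2 * G + 1 := by omega
    unfold Pg
    rcases h6 with h6 | h6
    · rw [if_pos h6, if_neg (by omega)]
      ring
    · rw [if_neg (by omega), if_pos h6]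
      ring
  · have h3 := hV.zero h2
    unfold Pg
    rw [h3]
    simp

theorem κL (hs : Sq6 κ μ lam Λ M L C ℓ B) (n : ℕ) :
    κ ^ (n + 1) * L (n + 1) = μ * (κ ^ n * L n) := by
  rw [hs.L_succ, hs.μ_eq]
  ring

theorem dd_low (hK : Ker g Λ M L C B c) (hs6 : Sq6 κ μ lam Λ M L C ℓ B)
    (hs : Sq5 κ μ lam Λ M L C ℓ' B) (hD : Dis2 g a D₁ κ L ℓ D) (ha : 0 < a) {V : Ix J → ℝ}
    (hV : InD g G V) :
    (if G = 0 then 0 else 1 / 1000 * (κ ^ (2 * G) * L (2 * G) / μ)) * nm V ^ 2 ≤ DD D V V := by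
  rw [dd_split hK hD hV hV]
  have hκ := hs6.κ0
  have hμ : 1 ≤ μ := μ_one hs
  have hμ0 : 0 < μ := by linarith
  have hL : ∀ n, 0 ≤ κ ^ n * L n := fun n => mul_nonneg (pow_nonneg hκ.le _) (L_nn hs _)
  have h2 : 1 / 1000 * (κ ^ (2 * G) * L (2 * G)) * nm (Pg g (2 * G + 1) V) ^ 2 ≤
      DD D (Pg g (2 * G + 1) V) (Pg g (2 * G + 1) V) := by
    rw [nm_sq]
    exact hD.low1 (2 * G) _ (Pg_in _ _)
  have h1 : (if G = 0 then 0 else 1 / 1000 * (κ ^ (2 * G) * L (2 * G) / μ)) *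
      nm (Pg g (2 * G) V) ^ 2 ≤ DD D (Pg g (2 * G) V) (Pg g (2 * G) V) := by
    split_ifs with h
    · rw [zero_mul]
      refine le_trans ?_ (hD.low (2 * G) _ (Pg_in _ _))
      refine mul_nonneg (mul_nonneg ha.le (hL _)) (tsum_nonneg fun i => sq_nonneg _)
    · obtain ⟨k, hk⟩ : ∃ k, 2 * G = k + 1 := ⟨2 * G - 1, by omega⟩
      have h3 := hD.low1 k (Pg g (2 * G) V) (by rw [← hk]; exact Pg_in _ _)
      rw [← nm_sq] at h3
      have h4 : κ ^ (2 * G) * L (2 * G) / μ = κ ^ k * L k := by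
        rw [hk, κL hs6, mul_div_assoc, mul_comm, div_mul_cancel₀ _ hμ0.ne']
      rw [h4]
      exact h3
  rw [nm_split hK hV, mul_add]
  refine add_le_add h1 (le_trans ?_ h2)
  refine mul_le_mul_of_nonneg_right ?_ (sq_nonneg _)
  split_ifs
  · exact mul_nonneg (by norm_num) (hL _)
  · refine mul_le_mul_of_nonneg_left (div_le_self (hL _) hμ) (by norm_num)

theorem nm_pg_le (hK : Ker g Λ M L C B c) (hs : Sq5 κ μ lam Λ M L C ℓ' B) {V : Ix J → ℝ}
    (hV : InD g G V) (p : ℕ) : nm (Pg g p V) ≤ nm V :=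
  nm_mono hs (hV.nice hK) (Pg_le p V)

theorem dd_up (hK : Ker g Λ M L C B c) (hs6 : Sq6 κ μ lam Λ M L C ℓ B)
    (hs : Sq5 κ μ lam Λ M L C ℓ' B) (hD : Dis2 g a D₁ κ L ℓ D) {V y : Ix J → ℝ}
    (hV : InD g G V) (hy : InD g G y) :
    |DD D V y| ≤ 10 ^ 6 * (1 + μ) * (κ ^ (2 * G) * L (2 * G)) * nm V * nm y := by
  rw [dd_split hK hD hV hy]
  have hκ := hs6.κ0
  have hμ : 1 ≤ μ := μ_one hs
  have hL : ∀ n, 0 ≤ κ ^ n * L n := fun n => mul_nonneg (pow_nonneg hκ.le _) (L_nn hs _)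
  have key : ∀ p, |DD D (Pg g p V) (Pg g p y)| ≤ 10 ^ 6 * (κ ^ p * L p) * nm V * nm y := by
    intro p
    refine (hD.up p _ _ (Pg_in _ _) (Pg_in _ _)).trans ?_
    show D₁ * (κ ^ p * L p) * nm (Pg g p V) * nm (Pg g p y) ≤ _
    have h1 := hD.D1
    have h2 := hL p
    have h3 := nm_nn (Pg g p V)
    have h4 := nm_nn (Pg g p y)
    have h5 := nm_pg_le hK hs hV p
    have h6 := nm_pg_le hK hs hy p
    have h7 := nm_nn V
    calc D₁ * (κ ^ p * L p) * nm (Pg g p V) * nm (Pg g p y)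
        ≤ 10 ^ 6 * (κ ^ p * L p) * nm (Pg g p V) * nm (Pg g p y) := by gcongr
      _ ≤ _ := by gcongr
  have h1 := key (2 * G)
  have h2 := key (2 * G + 1)
  rw [κL hs6] at h2
  refine (abs_add_le _ _).trans ((add_le_add h1 h2).trans (le_of_eq ?_))
  ring

/-! ### The bilinear terms -/

/-- the form of the estimate `S_KB` for the vectors `α` of the double group `G` -/
def KBd (g : J → ℕ) (L : ℕ → ℝ) (c : Ix J → Ix J → Ix J → ℝ) (q N₀ : ℝ) (G : ℕ) : Prop :=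
  ∀ (α β γ : Ix J → ℝ) (b b' : ℕ → ℝ), InD g G α → Nice g L β → Nice g L γ →
    (∀ p, nm (Pg g p β) ≤ b p) → (∀ p, nm (Pg g p γ) ≤ b' p) →
    |tl c α β γ| ≤ N₀ * nm α * (L (2 * G) * (
      (sA q b (2 * G) + nm (Pu g (2 * G) β)) *
        (nm (Pu g (2 * G) γ) + if 2 * G = 0 then 0 else b' (2 * G - 1))
      + (sA q b' (2 * G) + nm (Pu g (2 * G) γ)) *
        (nm (Pu g (2 * G) β) + if 2 * G = 0 then 0 else b (2 * G - 1))))

theorem last_le (hs : Sq5 κ μ lam Λ M L C ℓ' B) {b : ℕ → ℝ} (hb : ∀ p, 0 ≤ b p) (m : ℕ) :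
    (if m = 0 then 0 else b (m - 1)) ≤ sA (Λ / lam) b m := by
  split_ifs with h
  · exact sA_nn hs hb m
  · have h1 := Finset.single_le_sum (f := fun p => (Λ / lam) ^ (m - 1 - p) * b p)
      (fun p _ => mul_nonneg (pow_nonneg (ρ_nn hs) _) (hb p))
      (Finset.mem_range.2 (by omega : m - 1 < m))
    unfold sA
    simpa using h1

/-- products of two other modes -/
theorem T3 (hK : Ker g Λ M L C B c) (hs6 : Sq6 κ μ lam Λ M L C ℓ B)
    (hs : Sq5 κ μ lam Λ M L C ℓ' B) {N₀ : ℝ} (hN : 0 ≤ N₀)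
    (hKB : KBd g L c (Λ / lam) N₀ G) {V z : Ix J → ℝ} (hV : InD g G V) (hz : Nice g L z) :
    |tl c V (Po z) (Po z)| ≤ 2 * N₀ * (2 + lam) * nm V * WS (Λ / lam) L g z (2 * G) := by
  have h := hKB V (Po z) (Po z) (ww g z) (ww g z) hV (hz.po hs) (hz.po hs) (fun p => le_rfl)
    (fun p => le_rfl)
  have hA := last_le hs (b := ww g z) (ww_nn z) (2 * G)
  have hA0 := sA_nn hs (b := ww g z) (ww_nn z) (2 * G)
  have hP := nm_nn (Pu g (2 * G) (Po z))
  have hv := nm_nn V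
  have hl : 1 ≤ lam := lam_one hs
  have hw0 : 0 ≤ (if 2 * G = 0 then 0 else ww g z (2 * G - 1)) := by
    split_ifs
    exacts [le_rfl, ww_nn _ _]
  have hLw : L (2 * G) * (if 2 * G = 0 then 0 else ww g z (2 * G - 1)) =
      lam * (if 2 * G = 0 then 0 else L (2 * G - 1) * ww g z (2 * G - 1)) := by
    split_ifs with h0
    · ring
    · obtain ⟨k, hk⟩ : ∃ k, 2 * G = k + 1 := ⟨2 * G - 1, by omega⟩
      rw [hk, Nat.add_sub_cancel, hs.L_succ]
      ring
  have hWS : WS (Λ / lam) L g z (2 * G) = L (2 * G) * (sA (Λ / lam) (ww g z) (2 * G) +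
      nm (Pu g (2 * G) (Po z))) * nm (Pu g (2 * G) (Po z)) + sA (Λ / lam) (ww g z) (2 * G) *
      (if 2 * G = 0 then 0 else L (2 * G - 1) * ww g z (2 * G - 1)) := by
    unfold WS
    split_ifs <;> ring
  have hw1 : 0 ≤ (if 2 * G = 0 then 0 else L (2 * G - 1) * ww g z (2 * G - 1)) := by
    split_ifs
    exacts [le_rfl, mul_nonneg (L_nn hs _) (ww_nn _ _)]
  have hLm := L_nn hs (2 * G)
  rw [hWS]
  set A := sA (Λ / lam) (ww g z) (2 * G)
  set P := nm (Pu g (2 * G) (Po z))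
  set w := (if 2 * G = 0 then 0 else ww g z (2 * G - 1))
  set w' := (if 2 * G = 0 then 0 else L (2 * G - 1) * ww g z (2 * G - 1))
  set l := L (2 * G)
  refine h.trans ?_
  have e : N₀ * nm V * (l * ((A + P) * (P + w) + (A + P) * (P + w))) =
      2 * N₀ * nm V * (l * (A + P) * P + A * (l * w) + P * (l * w)) := by ring
  rw [e, hLw]
  have h5 : P * (lam * w') ≤ l * (A + P) * P := by
    rw [← hLw]
    calc P * (l * w) = l * w * P := by ring
      _ ≤ l * (A + P) * P := by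
        gcongr
        linarith
  have h6 : 0 ≤ l * (A + P) * P := by positivity
  have h7 : 0 ≤ A * w' := by positivity
  have h8 : l * (A + P) * P + A * (lam * w') + P * (lam * w') ≤
      (2 + lam) * (l * (A + P) * P + A * w') := by
    nlinarith [mul_nonneg (by linarith : (0:ℝ) ≤ lam) h6]
  calc 2 * N₀ * nm V * (l * (A + P) * P + A * (lam * w') + P * (lam * w'))
      ≤ 2 * N₀ * nm V * ((2 + lam) * (l * (A + P) * P + A * w')) := by gcongr
    _ = _ := by ring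

/-- products with the main modes -/
theorem T2 (hK : Ker g Λ M L C B c) (hs6 : Sq6 κ μ lam Λ M L C ℓ B)
    (hs : Sq5 κ μ lam Λ M L C ℓ' B) {N₀ : ℝ} (hN : 0 ≤ N₀)
    (hKB : KBd g L c (Λ / lam) N₀ G) {V W z : Ix J → ℝ} (hV : InD g G V) (hW : InD g G W)
    (hz : Nice g L z) :
    |tl c V (Pm z) W + tl c V W (Pm z)| ≤ 4 * N₀ * nm V *
      (L (2 * G) * (sA (Λ / lam) (ee g z) (2 * G) + nm (Pu g (2 * G) z))) * nm W := by
  have hb : ∀ p, nm (Pg g p (Pm z)) ≤ ee g z p := fun p => by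
    rw [nm_pm]
    exact le_add_of_nonneg_right (ww_nn _ _)
  have hb' : ∀ p, nm (Pg g p W) ≤ nm (Pg g p W) := fun p => le_rfl
  have h1 := hKB V (Pm z) W (ee g z) (fun p => nm (Pg g p W)) hV (hz.pm hs) (hW.nice hK) hb hb'
  have h2 := hKB V W (Pm z) (fun p => nm (Pg g p W)) (ee g z) hV (hW.nice hK) (hz.pm hs) hb' hb
  have hlow : ∀ p < 2 * G, nm (Pg g p W) = 0 := by
    intro p hp
    unfold nm
    have : ∀ i, Pg g p W i ^ 2 = 0 := by
      intro i
      unfold Pg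
      split_ifs with h
      · rw [hW.zero]
        · norm_num
        · rintro ⟨j, rfl, h3⟩
          have : g j = p := h
          omega
      · norm_num
    rw [tsum_congr this, tsum_zero, Real.sqrt_zero]
  have hsA : sA (Λ / lam) (fun p => nm (Pg g p W)) (2 * G) = 0 := by
    unfold sA
    refine Finset.sum_eq_zero fun p hp => ?_
    show _ * nm (Pg g p W) = 0
    rw [hlow p (Finset.mem_range.1 hp), mul_zero]
  have hl0 : (if 2 * G = 0 then 0 else nm (Pg g (2 * G - 1) W)) = 0 := by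
    split_ifs
    · rfl
    · exact hlow _ (by omega)
  have hPW : nm (Pu g (2 * G) W) ≤ nm W := nm_mono hs (hW.nice hK) (Pu_le _ _)
  have hA := last_le hs (b := ee g z) (ee_nn z) (2 * G)
  have hA0 := sA_nn hs (b := ee g z) (ee_nn z) (2 * G)
  have hX := X_le_Y hs hz (2 * G)
  have hX0 := nm_nn (Pu g (2 * G) (Pm z))
  have hPW0 := nm_nn (Pu g (2 * G) W)
  have hv := nm_nn V
  have hLm := L_nn hs (2 * G)
  rw [hsA, hl0] at h1 h2
  set A := sA (Λ / lam) (ee g z) (2 * G)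
  set e := (if 2 * G = 0 then 0 else ee g z (2 * G - 1))
  set X := nm (Pu g (2 * G) (Pm z))
  set Y := nm (Pu g (2 * G) z)
  set w := nm (Pu g (2 * G) W)
  set l := L (2 * G)
  have h3 : N₀ * nm V * (l * ((A + X) * (w + 0) + (0 + w) * (X + e))) ≤
      N₀ * nm V * (l * (2 * (A + Y) * nm W)) := by
    gcongr
    have hY0 : 0 ≤ Y := hX0.trans hX
    have h4 : (A + X) * w ≤ (A + Y) * nm W :=
      mul_le_mul (by linarith) hPW hPW0 (by linarith)
    have h5 : (X + e) * w ≤ (A + Y) * nm W :=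
      mul_le_mul (by linarith) hPW hPW0 (by linarith)
    nlinarith
  have h4 : N₀ * nm V * (l * ((0 + w) * (X + e) + (A + X) * (w + 0))) ≤
      N₀ * nm V * (l * (2 * (A + Y) * nm W)) := by
    rw [add_comm ((0 + w) * (X + e))]
    exact h3
  refine (abs_add_le _ _).trans ((add_le_add (h1.trans h3) (h2.trans h4)).trans (le_of_eq ?_))
  ring

end dbl

/-! ### Assembly -/

theorem arith {v nY nW l S0 k Q T R W N₀ NX NE μ lam I DV DVY t2 t3 t5 t6 : ℝ}
    (hv : 0 ≤ v) (hnY : 0 ≤ nY) (hl : 0 < l) (hS : 0 ≤ S0) (hk : 0 < k) (hQ : 1 ≤ Q) (hT : 0 ≤ T)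
    (hW : 0 ≤ W) (hN₀ : 1 ≤ N₀) (hNX : 1 ≤ NX) (hNE : 1 ≤ NE) (hμ : 1 ≤ μ) (hlam : 1 ≤ lam)
    (hY : nY ≤ 2 * NX / (Q * (k * l)) * T) (hnW : nW ≤ v + nY) (hR : (k + S0) * T ≤ R)
    (hDV : I * v ^ 2 ≤ DV) (hDVY : |DVY| ≤ 10 ^ 6 * (1 + μ) * (k * l) * v * nY)
    (h2 : |t2| ≤ 4 * N₀ * v * (l * S0) * nW) (h3 : |t3| ≤ 2 * N₀ * (2 + lam) * v * W)
    (h5 : |t5| ≤ v * (NE / (Q * k) * R)) (h6 : |t6| ≤ v * (NE / (Q * k) * R)) :
    -(DV + DVY) + t2 + t3 - t5 - t6 ≤ v * (-(I * v) +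
      (1 + 2 * NX + 4 * N₀ + 8 * N₀ * NX + 2 * 10 ^ 6 * (1 + μ) * NX + 2 * N₀ * (2 + lam) +
        2 * NE) * (l * S0) * v +
      (1 + 2 * NX + 4 * N₀ + 8 * N₀ * NX + 2 * 10 ^ 6 * (1 + μ) * NX + 2 * N₀ * (2 + lam) +
        2 * NE) / (Q * k) * R +
      (1 + 2 * NX + 4 * N₀ + 8 * N₀ * NX + 2 * 10 ^ 6 * (1 + μ) * NX + 2 * N₀ * (2 + lam) +
        2 * NE) * W) := by
  have hQ0 : 0 < Q := by linarith
  set N₂ := 1 + 2 * NX + 4 * N₀ + 8 * N₀ * NX + 2 * 10 ^ 6 * (1 + μ) * NX + 2 * N₀ * (2 + lam) +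
        2 * NE with hN₂
  set r := R / (Q * k) with hr
  have hR0 : 0 ≤ R := le_trans (by positivity) hR
  have hr0 : 0 ≤ r := by positivity
  have hkT : k * T ≤ R := by nlinarith [mul_nonneg hS hT]
  have hST : S0 * T ≤ R := by nlinarith [mul_nonneg hk.le hT]
  have e0 : l * (2 * NX / (Q * (k * l)) * T) = 2 * NX / (Q * k) * T := by
    field_simp
  have a1 : k * l * nY ≤ 2 * NX * r := by
    calc k * l * nY ≤ k * l * (2 * NX / (Q * (k * l)) * T) := by gcongr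
      _ = 2 * NX / (Q * k) * (k * T) := by rw [mul_assoc, e0]; ring
      _ ≤ 2 * NX / (Q * k) * R := by gcongr
      _ = 2 * NX * r := by rw [hr]; ring
  have a2 : l * S0 * nY ≤ 2 * NX * r := by
    calc l * S0 * nY ≤ l * S0 * (2 * NX / (Q * (k * l)) * T) := by gcongr
      _ = S0 * (l * (2 * NX / (Q * (k * l)) * T)) := by ring
      _ = 2 * NX / (Q * k) * (S0 * T) := by rw [e0]; ring
      _ ≤ 2 * NX / (Q * k) * R := by gcongr
      _ = 2 * NX * r := by rw [hr]; ring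
  have b1 : |DVY| ≤ 10 ^ 6 * (1 + μ) * v * (2 * NX * r) := by
    refine hDVY.trans ?_
    calc 10 ^ 6 * (1 + μ) * (k * l) * v * nY = 10 ^ 6 * (1 + μ) * v * (k * l * nY) := by ring
      _ ≤ _ := by gcongr
  have b2 : |t2| ≤ 4 * N₀ * v * (l * S0 * v + 2 * NX * r) := by
    refine h2.trans ?_
    calc 4 * N₀ * v * (l * S0) * nW ≤ 4 * N₀ * v * (l * S0) * (v + nY) := by gcongr
      _ = 4 * N₀ * v * (l * S0 * v + l * S0 * nY) := by ring
      _ ≤ _ := by gcongr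
  have b5 : v * (NE / (Q * k) * R) = v * (NE * r) := by rw [hr]; ring
  have e1 : N₂ / (Q * k) * R = N₂ * r := by rw [hr]; ring
  rw [b5] at h5 h6
  rw [e1]
  have c1 := (abs_le.1 b1).1
  have c2 := (abs_le.1 b2).2
  have c3 := (abs_le.1 h3).2
  have c5 := (abs_le.1 h5).1
  have c6 := (abs_le.1 h6).1
  have d1 : 4 * N₀ * (l * S0) * v ≤ N₂ * (l * S0) * v := by
    gcongr
    rw [hN₂]
    have : 0 ≤ 8 * N₀ * NX + 2 * 10 ^ 6 * (1 + μ) * NX + 2 * N₀ * (2 + lam) := by positivity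
    linarith
  have d2 : (10 ^ 6 * (1 + μ) * (2 * NX) + 8 * N₀ * NX + 2 * NE) * r ≤ N₂ * r := by
    gcongr
    rw [hN₂]
    have : 0 ≤ 2 * N₀ * (2 + lam) := by positivity
    linarith
  have d3 : 2 * N₀ * (2 + lam) * W ≤ N₂ * W := by
    gcongr
    rw [hN₂]
    have : 0 ≤ 8 * N₀ * NX + 2 * 10 ^ 6 * (1 + μ) * NX := by positivity
    linarith
  calc -(DV + DVY) + t2 + t3 - t5 - t6
      ≤ v * (-(I * v) + 4 * N₀ * (l * S0) * v +
        (10 ^ 6 * (1 + μ) * (2 * NX) + 8 * N₀ * NX + 2 * NE) * r + 2 * N₀ * (2 + lam) * W) := by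
        nlinarith
    _ ≤ _ := by gcongr

theorem t_ESTA7 : S_ESTA7 := by
  intro h65 hKB hRAP hRB hWT hX1 hX2 J g σ τ κ μ lam Λ M a D₁ L C ℓ B D c hK hs6 hR hD ha
  obtain ⟨ℓ', hs⟩ := h65 κ μ lam Λ M L C ℓ B hs6
  obtain ⟨N₀, hN₀, KB⟩ := hKB J g κ μ lam Λ M L C ℓ' B c hK hs
  obtain ⟨N₁, hN₁, RB⟩ := hRB J g κ μ lam Λ M a D₁ L C ℓ B D c hK hs6 hD
  obtain ⟨NX, hNX, XX⟩ := hX1 J g σ τ κ μ lam Λ M a D₁ L C ℓ B D c hK hs6 hR hD ha
  obtain ⟨NE, hNE, EE⟩ := hX2 J g σ τ κ μ lam Λ M a D₁ L C ℓ B D c hK hs6 hR hD ha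
  have hnice := (hRAP J g σ τ κ μ lam Λ M a D₁ L C ℓ B D c hK hs6 hR hD).1
  have WT := hWT J g σ τ κ μ lam Λ M L C ℓ B c hK hs6 hR
  have hrot : ∀ (G : ℕ) (X : Ix J → ℝ), nm (wt g (w1 G) (rt σ τ X)) = nm (wt g (w1 G) X) :=
    fun G X => nm_wt_rt hK hR (fun z hz => (WT z hz).2.2.2.2.1 G) X
  have hμ1 : 1 ≤ μ := μ_one hs
  have hl1 : 1 ≤ lam := lam_one hs
  have hκ := hs6.κ0
  have hN₂1 : 2 * NX ≤ 1 + 2 * NX + 4 * N₀ + 8 * N₀ * NX + 2 * 10 ^ 6 * (1 + μ) * NX +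
      2 * N₀ * (2 + lam) + 2 * NE := by
    have : 0 ≤ 8 * N₀ * NX + 2 * 10 ^ 6 * (1 + μ) * NX + 2 * N₀ * (2 + lam) := by positivity
    linarith
  refine ⟨1 + 2 * NX + 4 * N₀ + 8 * N₀ * NX + 2 * 10 ^ 6 * (1 + μ) * NX + 2 * N₀ * (2 + lam) +
    2 * NE, by linarith, ?_⟩
  intro Q G z hQ hz
  have hzn := hnice z hz
  have hQ0 : 0 < Q := by linarith
  have hk0 : 0 < κ ^ (2 * G) := pow_pos hκ _
  have hL0 : 0 < L (2 * G) := lt_of_lt_of_le one_pos (L_one hs _)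
  obtain ⟨hXa, hXb⟩ := XX Q G z hQ hz
  obtain ⟨hEa, hEb⟩ := EE Q G z hQ hz
  obtain ⟨hTSs, -⟩ := RB z hz
  -- signs
  have hsA0 : ∀ m, 0 ≤ sA (Λ / lam) (ee g z) m := fun m => sA_nn hs (ee_nn z) m
  have hZp : ∀ (b : ℕ → ℝ) m, (∀ p, 0 ≤ b p) → 0 ≤ Zp b m := by
    intro b m hb
    unfold Zp
    refine add_nonneg ?_ ?_ <;> split_ifs
    exacts [le_rfl, hb _, le_rfl, hb _]
  have hTS0 : ∀ p, 0 ≤ TS κ (Λ / lam) L g z p := by
    intro p
    unfold TS
    have h1 := hZp (ee g z) p (ee_nn z)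
    have h2 := nm_nn (Pu g p z)
    have h3 := hsA0 p
    have h4 := L_nn hs p
    have h5 : 0 ≤ κ ^ p := (pow_pos hκ p).le
    positivity
  have hTTS : TS κ (Λ / lam) L g z (2 * G) ≤ TTS κ (Λ / lam) L g z (2 * G) := by
    unfold TTS
    refine Real.le_sqrt_of_sq_le ?_
    have h1 : Summable (fun k : ℕ => TS κ (Λ / lam) L g z (2 * G + k) ^ 2) :=
      hTSs.comp_injective (add_right_injective (2 * G))
    exact h1.le_tsum 0 (fun _ _ => sq_nonneg _)
  have hR0 : (κ ^ (2 * G) + (sA (Λ / lam) (ee g z) (2 * G) + nm (Pu g (2 * G) z))) *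
      TS κ (Λ / lam) L g z (2 * G) ≤ RS κ (Λ / lam) L g z (2 * G) := by
    unfold RS
    have h1 := hZp (ee g z) (2 * G) (ee_nn z)
    have h2 := nm_nn (Pu g (2 * G) z)
    have h3 := hsA0 (2 * G)
    have h4 := hZp (TS κ (Λ / lam) L g z) (2 * G) hTS0
    have h5 := sA_nn hs hTS0 (2 * G)
    have h6 : 0 ≤ TTS κ (Λ / lam) L g z (2 * G) := Real.sqrt_nonneg _
    have h7 : (κ ^ (2 * G) + (sA (Λ / lam) (ee g z) (2 * G) + nm (Pu g (2 * G) z))) *
        TS κ (Λ / lam) L g z (2 * G) ≤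
        (κ ^ (2 * G) + sA (Λ / lam) (ee g z) (2 * G) + nm (Pu g (2 * G) z)) *
        (TTS κ (Λ / lam) L g z (2 * G) + Zp (TS κ (Λ / lam) L g z) (2 * G)) := by
      rw [← add_assoc]
      gcongr
      linarith
    have h8 : 0 ≤ (sA (Λ / lam) (TS κ (Λ / lam) L g z) (2 * G) + TTS κ (Λ / lam) L g z (2 * G)) *
        (nm (Pu g (2 * G) z) + Zp (ee g z) (2 * G)) := by positivity
    linarith
  -- the vectors
  have hV : InD g G (vv g σ τ D c (Om Q κ L) G z) := wt_inD g G _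
  have hW : InD g G (wt g (w1 G) z) := wt_inD g G _
  have hYY : InD g G (fun i => wt g (w1 G) z i - vv g σ τ D c (Om Q κ L) G z i) := hW.sub hV
  have eY : (fun i => wt g (w1 G) z i - vv g σ τ D c (Om Q κ L) G z i) = fun i =>
      wt g (w1 G) (rt σ τ (X1 g D c (Om Q κ L) G z)) i + wt g (w1 G) (X2 g σ τ c (Om Q κ L) G z) i := by
    funext i
    unfold vv
    cases i with
    | inl n =>
      show (0 : ℝ) - 0 = 0 + 0
      ring
    | inr j =>
      show w1 G (g j / 2) * z (Sum.inr j) - w1 G (g j / 2) * (z (Sum.inr j) -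
        rt σ τ (X1 g D c (Om Q κ L) G z) (Sum.inr j) - X2 g σ τ c (Om Q κ L) G z (Sum.inr j)) =
        w1 G (g j / 2) * rt σ τ (X1 g D c (Om Q κ L) G z) (Sum.inr j) +
        w1 G (g j / 2) * X2 g σ τ c (Om Q κ L) G z (Sum.inr j)
      ring
  have hY : nm (fun i => wt g (w1 G) z i - vv g σ τ D c (Om Q κ L) G z i) ≤
      2 * NX / (Q * (κ ^ (2 * G) * L (2 * G))) * TS κ (Λ / lam) L g z (2 * G) := by
    rw [eY]
    refine (nm_add ((wt_inD g G _).sq hK) ((wt_inD g G _).sq hK)).trans ?_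
    rw [hrot]
    refine (add_le_add hXa hXb).trans (le_of_eq ?_)
    ring
  refine ⟨hY.trans ?_, ?_⟩
  · refine mul_le_mul_of_nonneg_right ?_ (hTS0 _)
    exact div_le_div_of_nonneg_right hN₂1 (by positivity)
  -- the main estimate
  have hnW : nm (wt g (w1 G) z) ≤ nm (vv g σ τ D c (Om Q κ L) G z) +
      nm (fun i => wt g (w1 G) z i - vv g σ τ D c (Om Q κ L) G z i) := by
    refine le_trans (le_of_eq ?_) (nm_add (hV.sq hK) (hYY.sq hK))
    congr 1
    funext i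
    ring
  have hKBd : KBd g L c (Λ / lam) N₀ G := by
    intro α β γ b b' hα hβ hγ hb hb'
    refine KB (2 * G) α β γ b b' (hα.nice hK) hβ hγ (Or.inr ⟨by omega, fun i hi => ?_⟩) hb hb'
    refine hα.zero fun h => hi ?_
    obtain ⟨j, rfl, hj⟩ := h
    show g j / 2 = 2 * G / 2
    omega
  set V := vv g σ τ D c (Om Q κ L) G z with hVdef
  set W := wt g (w1 G) z with hWdef
  set Y := (fun i => W i - V i) with hYdef
  set X3 := rt σ τ (E1 g D c (Om Q κ L) G z) with hX3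
  set X4 := E2 g σ τ D c (Om Q κ L) G z with hX4
  have hsum : ∀ f : Ix J → ℝ, Summable (fun i => V i * f i) := fun f =>
    sum_fin hK (G := G) fun i hi => by rw [hV.zero hi, zero_mul]
  have ef : ∀ i, V i * ff g σ τ D c (Om Q κ L) G z i = -(V i * lin D W i) +
      (V i * bl c (Pm z) W i + V i * bl c W (Pm z) i) + V i * bl c (Po z) (Po z) i -
      V i * wt g (w1 G) X3 i - V i * wt g (w1 G) X4 i := by
    intro i
    unfold ff
    rw [wt_mul hV, wt_mul hV, wt_mul hV]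
    by_cases hi : i ∈ Sp g G
    · rw [lin_po hD z hi]
      show V i * (-lin D W i + (bl c (Pm z) W i + bl c W (Pm z) i) + bl c (Po z) (Po z) i -
        X3 i - X4 i) = _
      ring
    · rw [hV.zero hi]
      ring
  have e1 : ∑' i, V i * ff g σ τ D c (Om Q κ L) G z i = -(DD D V V + DD D V Y) +
      (tl c V (Pm z) W + tl c V W (Pm z)) + tl c V (Po z) (Po z) -
      ∑' i, V i * wt g (w1 G) X3 i - ∑' i, V i * wt g (w1 G) X4 i := by
    rw [tsum_congr ef]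
    have hh := (((((hsum (lin D W)).hasSum.neg.add ((hsum (bl c (Pm z) W)).hasSum.add
      (hsum (bl c W (Pm z))).hasSum)).add (hsum (bl c (Po z) (Po z))).hasSum).sub
      (hsum (wt g (w1 G) X3)).hasSum).sub (hsum (wt g (w1 G) X4)).hasSum).tsum_eq
    rw [hh, (tl_bl hK hs (hV.nice hK) (hzn.pm hs) (hW.nice hK)).2,
      (tl_bl hK hs (hV.nice hK) (hW.nice hK) (hzn.pm hs)).2,
      (tl_bl hK hs (hV.nice hK) (hzn.po hs) (hzn.po hs)).2, sum_lin hK hV hW]
    have e2 : DD D V W = DD D V V + DD D V Y := by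
      rw [← dd_add hK hV hV hYY]
      congr 1
      funext i
      show W i = V i + (W i - V i)
      ring
    rw [e2]
  rw [e1]
  have h5 : |∑' i, V i * wt g (w1 G) X3 i| ≤ nm V * (NE / (Q * κ ^ (2 * G)) *
      RS κ (Λ / lam) L g z (2 * G)) := by
    refine (cs (hV.sq hK) ((wt_inD g G _).sq hK)).trans ?_
    rw [hX3, hrot]
    exact mul_le_mul_of_nonneg_left hEa (nm_nn V)
  have h6 : |∑' i, V i * wt g (w1 G) X4 i| ≤ nm V * (NE / (Q * κ ^ (2 * G)) *
      RS κ (Λ / lam) L g z (2 * G)) := by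
    refine (cs (hV.sq hK) ((wt_inD g G _).sq hK)).trans ?_
    exact mul_le_mul_of_nonneg_left hEb (nm_nn V)
  have hWS : 0 ≤ WS (Λ / lam) L g z (2 * G) := by
    unfold WS
    have h1 := sA_nn hs (b := ww g z) (ww_nn z) (2 * G)
    have h2 := nm_nn (Pu g (2 * G) (Po z))
    refine add_nonneg (by positivity) ?_
    split_ifs
    · exact le_rfl
    · exact mul_nonneg (mul_nonneg (L_nn hs _) h1) (ww_nn _ _)
  exact arith (nm_nn V) (nm_nn Y) hL0 (add_nonneg (hsA0 _) (nm_nn _)) hk0 hQ (hTS0 _) hWS hN₀ hNX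
    hNE hμ1 hl1 hY hnW hR0 (dd_low hK hs6 hs hD ha hV) (dd_up hK hs6 hs hD hV hYY)
    (T2 hK hs6 hs (by linarith) hKBd hV hW hzn) (T3 hK hs6 hs (by linarith) hKBd hV hzn) h5 h6

end Pool.Agent.Y678.SK
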